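import Pool.Agent.Helper51.RP.Goals2

/-!
# Project RP, packet RP-PRM: permutation modules modulo `p`
-/

namespace Pool.Agent.Helper99.RP

open Polynomial

/-- Representatives of `s` free orbits. -/
theorem exists_reps {Y : Type} [Finite Y] (τ : Equiv.Perm Y) (m s : ℕ) (hm : 0 < m)
    (hτ : τ ^ m = 1)
    (h : m * s ≤ {y : Y | ∀ i, 0 < i → i < m → (τ ^ i) y ≠ y}.ncard) :
    ∃ r : Fin s → Y, ∀ a b : Fin s, ∀ i j : ℕ, i < m → j < m →
      (τ ^ i) (r a) = (τ ^ j) (r b) → a = b ∧ i = j := by
  classical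
  have : Fintype Y := Fintype.ofFinite Y
  induction s with
  | zero => exact ⟨fun a => a.elim0, fun a => a.elim0⟩
  | succ s ih =>
    obtain ⟨r, hr⟩ := ih (le_trans (Nat.mul_le_mul_left m (Nat.le_succ s)) h)
    set U : Finset Y := (Finset.univ : Finset (Fin s × Fin m)).image
      (fun x => (τ ^ (x.2 : ℕ)) (r x.1)) with hU
    have hUcard : U.card ≤ s * m := by
      refine Finset.card_image_le.trans ?_
      rw [Finset.card_univ, Fintype.card_prod, Fintype.card_fin, Fintype.card_fin]
    have hlt : (U : Set Y).ncard < {y : Y | ∀ i, 0 < i → i < m → (τ ^ i) y ≠ y}.ncard := by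
      rw [Set.ncard_coe_finset]
      have : m * (s + 1) = s * m + m := by ring
      omega
    obtain ⟨y, hy, hyU⟩ := Set.exists_mem_notMem_of_ncard_lt_ncard hlt (Set.toFinite _)
    have hself : ∀ i j : ℕ, i < j → j < m → (τ ^ i) y ≠ (τ ^ j) y := by
      intro i j hij hj he
      have h1 : (τ ^ j) y = (τ ^ i) ((τ ^ (j - i)) y) := by
        rw [← Equiv.Perm.mul_apply, ← pow_add, Nat.add_sub_cancel' hij.le]
      rw [h1] at he
      exact hy (j - i) (by omega) (by omega) ((τ ^ i).injective he).symm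
    have hnew : ∀ (b : Fin s) (i j : ℕ), i < m → (τ ^ i) y ≠ (τ ^ j) (r b) := by
      intro b i j hi he
      apply hyU
      have h1 : y = (τ ^ ((j + (m - i)) % m)) (r b) := by
        have h2 : τ ^ ((j + (m - i)) % m) = τ ^ (j + (m - i)) :=
          pow_eq_pow_of_modEq (Nat.mod_modEq _ _) hτ
        rw [h2, add_comm, pow_add, Equiv.Perm.mul_apply, ← he, ← Equiv.Perm.mul_apply,
          ← pow_add, Nat.sub_add_cancel hi.le, hτ, Equiv.Perm.one_apply]
      rw [h1, Finset.mem_coe, hU, Finset.mem_image]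
      exact ⟨(b, ⟨(j + (m - i)) % m, Nat.mod_lt _ hm⟩), Finset.mem_univ _, rfl⟩
    refine ⟨Fin.cons y r, ?_⟩
    intro a b i j hi hj he
    induction a using Fin.cases with
    | zero =>
      induction b using Fin.cases with
      | zero =>
        refine ⟨rfl, ?_⟩
        rw [Fin.cons_zero] at he
        rcases lt_trichotomy i j with h1 | h1 | h1
        · exact absurd he (hself i j h1 hj)
        · exact h1
        · exact absurd he.symm (hself j i h1 hi)
      | succ b =>
        rw [Fin.cons_zero, Fin.cons_succ] at he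
        exact absurd he (hnew b i j hi)
    | succ a =>
      induction b using Fin.cases with
      | zero =>
        rw [Fin.cons_zero, Fin.cons_succ] at he
        exact absurd he.symm (hnew a j i hj)
      | succ b =>
        rw [Fin.cons_succ, Fin.cons_succ] at he
        obtain ⟨h1, h2⟩ := hr a b i j hi hj he
        exact ⟨by rw [h1], h2⟩

section alg

variable (R : Type) [CommRing R] (m : ℕ) [NeZero m]

/-- The shift `(S q)(i) = q(i - 1)`. -/
noncomputable def sh : Module.End R (ZMod m → R) :=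
  LinearMap.funLeft R R (fun i : ZMod m => i - 1)

theorem sh_pow (j : ℕ) (q : ZMod m → R) (i : ZMod m) : ((sh R m) ^ j) q i = q (i - j) := by
  induction j generalizing i with
  | zero => simp
  | succ j ih =>
    rw [pow_succ', Module.End.mul_apply]
    change ((sh R m) ^ j) q (i - 1) = _
    rw [ih]
    congr 1
    push_cast
    ring

theorem sh_pow_m : (sh R m) ^ m = 1 := by
  refine LinearMap.ext fun q => ?_
  funext i
  rw [sh_pow, ZMod.natCast_self, sub_zero]
  rfl

theorem aeval_sh (P : R[X]) (q : ZMod m → R) (i : ZMod m) :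
    (aeval (sh R m) P) q i = ∑ j ∈ P.support, P.coeff j * q (i - j) := by
  rw [aeval_eq_sum_range, LinearMap.sum_apply, Finset.sum_apply]
  have h1 : ∀ j, ((P.coeff j • (sh R m) ^ j) q) i = P.coeff j * q (i - j) := by
    intro j
    rw [LinearMap.smul_apply, Pi.smul_apply, sh_pow, smul_eq_mul]
  rw [Finset.sum_congr rfl fun j _ => h1 j]
  symm
  refine Finset.sum_subset ?_ ?_
  · intro j hj
    rw [Finset.mem_range]
    exact Nat.lt_succ_of_le (le_natDegree_of_mem_supp j hj)
  · intro j _ hj
    rw [notMem_support_iff.1 hj, zero_mul]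

/-- The coefficient vector of a polynomial modulo `X^m - 1`. -/
noncomputable def cv (f : R[X]) : ZMod m → R := (aeval (sh R m) f) (Pi.single 0 1)

theorem cv_eq (f : R[X]) (hf : f.degree < m) (i : ZMod m) : cv R m f i = f.coeff i.val := by
  classical
  unfold cv
  rw [aeval_sh]
  have h1 : ∀ j ∈ f.support, f.coeff j * (Pi.single 0 1 : ZMod m → R) (i - j) =
      if j = i.val then f.coeff j else 0 := by
    intro j hj
    have hjm : j < m := by
      have h2 := le_degree_of_mem_supp j hj
      have h3 := lt_of_le_of_lt h2 hf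
      exact_mod_cast h3
    by_cases h4 : j = i.val
    · have h5 : i - (j : ZMod m) = 0 := by rw [h4, ZMod.natCast_zmod_val, sub_self]
      rw [if_pos h4, h5, Pi.single_eq_same, mul_one]
    · have h5 : i - (j : ZMod m) ≠ 0 := by
        intro h6
        apply h4
        rw [sub_eq_zero.1 h6, ZMod.val_natCast, Nat.mod_eq_of_lt hjm]
      rw [if_neg h4, Pi.single_eq_of_ne h5, mul_zero]
  rw [Finset.sum_congr rfl h1, Finset.sum_ite_eq']
  split_ifs with h
  · rfl
  · exact (notMem_support_iff.1 h).symm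

theorem cv_mul (P f : R[X]) (i : ZMod m) :
    cv R m (P * f) i = ∑ j ∈ P.support, P.coeff j * cv R m f (i - j) := by
  unfold cv
  rw [map_mul, Module.End.mul_apply, aeval_sh]

theorem cv_zero (h : R[X]) : cv R m (h * (X ^ m - 1)) = 0 := by
  unfold cv
  rw [map_mul, map_sub, map_pow, aeval_X, sh_pow_m, map_one, sub_self, mul_zero]
  rfl

end alg

/-- The kernel of `P` on the regular module. -/
theorem kernel (p : ℕ) [Fact p.Prime] (m : ℕ) [NeZero m] (P : (ZMod p)[X])
    (hP : P ∣ X ^ m - 1) :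
    ∃ ι : (Fin P.natDegree → ZMod p) → (ZMod m → ZMod p), Function.Injective ι ∧
      ∀ u i, ∑ j ∈ P.support, P.coeff j * ι u (i - j) = 0 := by
  classical
  obtain ⟨Q, hQ⟩ := hP
  have hm : m ≠ 0 := NeZero.ne m
  have hne : (X ^ m - 1 : (ZMod p)[X]) ≠ 0 := X_pow_sub_C_ne_zero (Nat.pos_of_ne_zero hm) 1
  have hP0 : P ≠ 0 := by
    rintro rfl
    exact hne (by rw [hQ, zero_mul])
  have hQ0 : Q ≠ 0 := by
    rintro rfl
    exact hne (by rw [hQ, mul_zero])
  have hdeg : P.degree + Q.degree = m := by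
    rw [← degree_mul, ← hQ]
    exact degree_X_pow_sub_C (Nat.pos_of_ne_zero hm) 1
  let e := (degreeLTEquiv (ZMod p) P.natDegree).symm
  have he : ∀ u, ((e u : (ZMod p)[X]) * Q).degree < m := by
    intro u
    by_cases h0 : (e u : (ZMod p)[X]) = 0
    · rw [h0, zero_mul, degree_zero]
      exact WithBot.bot_lt_coe _
    · have h1 : (e u : (ZMod p)[X]).degree < P.degree := by
        have h2 := mem_degreeLT.1 (e u).2
        rwa [degree_eq_natDegree hP0]
      rw [degree_mul, ← hdeg]
      refine WithBot.add_lt_add_right ?_ h1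
      rw [Ne, degree_eq_bot]
      exact hQ0
  refine ⟨fun u => cv (ZMod p) m ((e u : (ZMod p)[X]) * Q), ?_, ?_⟩
  · intro u u' huu
    have h1 : (e u : (ZMod p)[X]) * Q = (e u' : (ZMod p)[X]) * Q := by
      ext n
      by_cases hn : n < m
      · have h2 := congrFun huu (n : ZMod m)
        change cv (ZMod p) m ((e u : (ZMod p)[X]) * Q) n =
          cv (ZMod p) m ((e u' : (ZMod p)[X]) * Q) n at h2
        rw [cv_eq _ _ _ (he u), cv_eq _ _ _ (he u'), ZMod.val_natCast, Nat.mod_eq_of_lt hn] at h2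
        exact h2
      · rw [coeff_eq_zero_of_degree_lt, coeff_eq_zero_of_degree_lt]
        · exact lt_of_lt_of_le (he u') (by exact_mod_cast not_lt.1 hn)
        · exact lt_of_lt_of_le (he u) (by exact_mod_cast not_lt.1 hn)
    have h2 : (e u : (ZMod p)[X]) = (e u' : (ZMod p)[X]) := mul_right_cancel₀ hQ0 h1
    exact e.injective (Subtype.ext h2)
  · intro u i
    have h1 : P * ((e u : (ZMod p)[X]) * Q) = (e u : (ZMod p)[X]) * (X ^ m - 1) := by
      rw [hQ]
      ring
    have h2 := cv_mul (ZMod p) m P ((e u : (ZMod p)[X]) * Q) i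
    rw [h1, cv_zero] at h2
    exact h2.symm

/-- Packet RP-PRM. -/
theorem s_prm : Pool.Agent.Helper51.RP.S_PRM := by
  intro p _ k _ _ m ζ Φ P hP Y _ σ s₀ hσ hs
  classical
  have hm : 0 < m := lt_trans one_pos hP.one_lt
  have : NeZero m := ⟨hm.ne'⟩
  set τ : Equiv.Perm Y := σ⁻¹ with hτdef
  have hτ : τ ^ m = 1 := by rw [hτdef, inv_pow, hσ, inv_one]
  have hset : {y : Y | ∀ i, 0 < i → i < m → (τ ^ i) y ≠ y} =
      {y : Y | ∀ i, 0 < i → i < m → (σ ^ i) y ≠ y} := by
    ext y
    refine forall_congr' fun i => forall_congr' fun _ => forall_congr' fun _ => ?_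
    rw [hτdef, inv_pow]
    refine not_congr ?_
    rw [Equiv.Perm.inv_eq_iff_eq]
    exact eq_comm
  obtain ⟨r, hr⟩ := exists_reps τ m s₀ hm hτ (by rw [hset]; exact hs)
  obtain ⟨ι, hι, hker⟩ := kernel p m P hP.dvdP
  let e : Fin s₀ × ZMod m → Y := fun x => (τ ^ x.2.val) (r x.1)
  have he : Function.Injective e := by
    rintro ⟨a, i⟩ ⟨b, j⟩ hab
    obtain ⟨h1, h2⟩ := hr a b i.val j.val (ZMod.val_lt i) (ZMod.val_lt j) hab
    rw [Prod.mk.injEq]
    exact ⟨h1, ZMod.val_injective m h2⟩
  have hshift : ∀ (j : ℕ) (a : Fin s₀) (i : ZMod m), (σ ^ j) (e (a, i)) = e (a, i - j) := by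
    intro j a i
    change (σ ^ j) ((τ ^ i.val) (r a)) = (τ ^ (i - j).val) (r a)
    have h1 : τ ^ i.val = τ ^ j * τ ^ (i - j).val := by
      rw [← pow_add]
      refine pow_eq_pow_of_modEq ?_ hτ
      rw [← ZMod.natCast_eq_natCast_iff]
      push_cast
      rw [ZMod.natCast_zmod_val, ZMod.natCast_zmod_val]
      ring
    rw [h1, ← Equiv.Perm.mul_apply, ← mul_assoc, hτdef, inv_pow, mul_inv_cancel, one_mul]
  let c : (Fin s₀ → Fin P.natDegree → ZMod p) → Y → ZMod p := fun u =>
    Function.extend e (fun x => ι (u x.1) x.2) 0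
  have hc : Function.Injective c := by
    intro u u' huu
    funext a
    apply hι
    funext i
    have h1 := congrFun huu (e (a, i))
    change Function.extend e (fun x => ι (u x.1) x.2) 0 (e (a, i)) =
      Function.extend e (fun x => ι (u' x.1) x.2) 0 (e (a, i)) at h1
    rw [he.extend_apply, he.extend_apply] at h1
    exact h1
  refine ⟨Finset.univ.image c, ?_, ?_⟩
  · rw [Finset.card_image_of_injective _ hc, Finset.card_univ, Fintype.card_fun,
      Fintype.card_fun, Fintype.card_fin, Fintype.card_fin, ZMod.card, ← pow_mul]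
  · intro f hf y
    obtain ⟨u, _, rfl⟩ := Finset.mem_image.1 hf
    by_cases hy : ∃ x, e x = y
    · obtain ⟨⟨a, i⟩, rfl⟩ := hy
      refine Eq.trans (Finset.sum_congr rfl fun j _ => ?_) (hker (u a) i)
      rw [hshift]
      change _ * Function.extend e (fun x => ι (u x.1) x.2) 0 (e (a, i - j)) = _
      rw [he.extend_apply]
    · refine Finset.sum_eq_zero fun j _ => ?_
      have h1 : ¬ ∃ x, e x = (σ ^ j) y := by
        rintro ⟨⟨a, i⟩, hx⟩
        apply hy
        refine ⟨(a, i + j), ?_⟩
        apply (σ ^ j).injective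
        rw [hshift, ← hx, add_sub_cancel_right]
      change _ * Function.extend e (fun x => ι (u x.1) x.2) 0 ((σ ^ j) y) = 0
      rw [Function.extend_apply' _ _ _ h1, Pi.zero_apply, mul_zero]

end Pool.Agent.Helper99.RP
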