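import Pool.Agent.Helper26.RP.Goals

/-!
# MP_105b7b_pr, packet CLB: the lower growth rate and cuts
-/

noncomputable section

namespace RP.PkCLB

open MeasureTheory

theorem ar_pos {K : Set E} (h : Body K) : 0 < ar K := by
  unfold ar
  have h1 : volume K ≠ ⊤ := h.cpt.measure_lt_top.ne
  have h2 : volume K ≠ 0 := by
    intro h0
    have := (isOpen_interior (s := K)).measure_pos (volume : Measure E) h.int
    have h3 : volume (interior K) ≤ volume K := measure_mono interior_subset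
    rw [h0] at h3
    exact absurd (le_antisymm h3 (zero_le)) this.ne'
  exact ENNReal.toReal_pos h2 h1

/-- CLB. -/
theorem clb : G_GCL → G_DEG → G_EXC → G_CLB := by
  intro gcl deg _ K α β' γ β x hK hab hK1 hx hL1 hL2
  by_cases hK2 : Body (K ∩ HR α β' γ)
  swap
  · obtain ⟨-, -, hA, hw⟩ := (deg K α β' γ hK).2 hK2
    rw [hA] at hL1
    intro ε hε
    filter_upwards [hL1 ε hε] with n hn
    rw [← hw n]
    exact hn
  obtain ⟨hA, hg⟩ := gcl K α β' γ hK hab hK1 hK2
  have hL2' := hL2 hK2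
  have p1 := ar_pos hK1
  have p2 := ar_pos hK2
  have p := ar_pos hK
  set A := ar K with hAdef
  set A1 := ar (K ∩ HL α β' γ) with hA1
  set A2 := ar (K ∩ HR α β' γ) with hA2
  intro ε hε
  obtain ⟨η, hη, N, hN⟩ := hg (ε / 3) (by positivity)
  obtain ⟨N1, hN1⟩ := Filter.eventually_atTop.1 (hL1 (ε / 3) (by positivity))
  obtain ⟨N2, hN2⟩ := Filter.eventually_atTop.1 (hL2' (ε / 3) (by positivity))
  set θ := A1 / A with hθ
  have hθ0 : 0 < θ := by positivity
  have hθ1 : θ < 1 := by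
    rw [hθ, div_lt_one p]
    linarith
  have hθ2 : 0 < 1 - θ := by linarith
  have e1 := (tendsto_natCast_atTop_atTop (R := ℝ)).eventually_ge_atTop (6 + 1 / η)
  have e2 := (tendsto_natCast_atTop_atTop (R := ℝ)).eventually_ge_atTop
    (6 + ((N : ℝ) + N1 + 1) / θ)
  have e3 := (tendsto_natCast_atTop_atTop (R := ℝ)).eventually_ge_atTop
    (6 + ((N : ℝ) + N2) / (1 - θ))
  have e4 := (tendsto_natCast_atTop_atTop (R := ℝ)).eventually_ge_atTop
    (6 + (3 / ε) * (x / A1 + 6 * |β + x / A - ε|))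
  filter_upwards [e1, e2, e3, e4, Filter.eventually_ge_atTop 6] with n h1 h2 h3 h4 h6
  obtain ⟨m, rfl⟩ : ∃ m, n = m + 6 := ⟨n - 6, by omega⟩
  push_cast at h1 h2 h3 h4
  have h1' : 1 ≤ η * m := by
    have : 1 / η ≤ m := by linarith
    rw [div_le_iff₀ hη] at this
    linarith
  have h2' : (N : ℝ) + N1 + 1 ≤ θ * m := by
    have : ((N : ℝ) + N1 + 1) / θ ≤ m := by linarith
    rw [div_le_iff₀ hθ0] at this
    linarith
  have h3' : (N : ℝ) + N2 ≤ (1 - θ) * m := by
    have : ((N : ℝ) + N2) / (1 - θ) ≤ m := by linarith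
    rw [div_le_iff₀ hθ2] at this
    linarith
  have h4' : x / A1 + 6 * |β + x / A - ε| ≤ ε / 3 * m := by
    have : (3 / ε) * (x / A1 + 6 * |β + x / A - ε|) ≤ m := by linarith
    have h5 : ε / 3 * ((3 / ε) * (x / A1 + 6 * |β + x / A - ε|)) ≤ ε / 3 * m := by gcongr
    have h7 : ε / 3 * ((3 / ε) * (x / A1 + 6 * |β + x / A - ε|)) =
        x / A1 + 6 * |β + x / A - ε| := by field_simp
    linarith
  have hm0 : (0:ℝ) ≤ m := Nat.cast_nonneg m
  have hfl : ((⌊θ * m⌋₊ : ℕ) : ℝ) ≤ θ * m := Nat.floor_le (by positivity)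
  have hfl2 : θ * m < ((⌊θ * m⌋₊ : ℕ) : ℝ) + 1 := Nat.lt_floor_add_one _
  set a := ⌊θ * m⌋₊ with ha
  have ham : a ≤ m := by
    have : (a : ℝ) ≤ m := by nlinarith
    exact_mod_cast this
  obtain ⟨b, hb⟩ : ∃ b, m = a + b := ⟨m - a, by omega⟩
  have hmab : (m : ℝ) = a + b := by rw [hb]; push_cast; ring
  have haN : N ≤ a ∧ N1 ≤ a := by
    have : (N : ℝ) + N1 < (a : ℝ) := by
      have hh : (N:ℝ) + N1 + 1 < (a : ℝ) + 1 := lt_of_le_of_lt h2' hfl2
      linarith
    have h' : N + N1 < a := by exact_mod_cast this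
    omega
  have hbN : N ≤ b ∧ N2 ≤ b := by
    have : (N : ℝ) + N2 ≤ (b : ℝ) := by
      have : (b : ℝ) = m - a := by linarith
      rw [this]
      linarith
    have h' : N + N2 ≤ b := by exact_mod_cast this
    omega
  have habs : |(a : ℝ) - θ * (a + b)| ≤ η * (a + b) := by
    rw [← hmab]
    have : |(a : ℝ) - θ * m| ≤ 1 := by
      rw [abs_le]
      constructor <;> linarith
    linarith
  have key := hN a b haN.1 hbN.1 habs
  have w1 := hN1 a haN.2
  have w2 := hN2 b hbN.2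
  rw [hb]
  refine le_trans ?_ key
  have hp1 : (0:ℝ) < Real.exp ((β + x / A1 - ε / 3) * a) := Real.exp_pos _
  have hp2 : (0:ℝ) < Real.exp ((β - ε / 3) * b) := Real.exp_pos _
  have step : Real.exp ((β + x / A1 - ε / 3) * a) * Real.exp ((β - ε / 3) * b) *
      Real.exp (-(ε / 3) * (a + b)) ≤
      w a (K ∩ HL α β' γ) * w b (K ∩ HR α β' γ) * Real.exp (-(ε / 3) * (a + b)) := by
    refine mul_le_mul_of_nonneg_right ?_ (Real.exp_pos _).le
    exact mul_le_mul w1 w2 hp2.le (hp1.le.trans w1)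
  refine le_trans ?_ step
  rw [← Real.exp_add, ← Real.exp_add]
  apply Real.exp_le_exp.mpr
  have hxa : x / A1 * (θ * m) = x / A * m := by
    rw [hθ]
    field_simp
  have hxA1 : 0 ≤ x / A1 := div_nonneg hx p1.le
  have hxa2 : x / A * m - x / A1 ≤ x / A1 * a := by
    have hge : θ * m - 1 ≤ a := by linarith
    have := mul_le_mul_of_nonneg_left hge hxA1
    have e : x / A1 * (θ * m - 1) = x / A * m - x / A1 := by rw [mul_sub, hxa]; ring
    linarith
  have habs2 : β + x / A - ε ≤ |β + x / A - ε| := le_abs_self _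
  have hcast : (((a + b : ℕ) + 6 : ℕ) : ℝ) = m + 6 := by
    rw [hb]; push_cast; ring
  rw [hcast]
  have e2 : (β + x / A1 - ε / 3) * a + (β - ε / 3) * b + -(ε / 3) * (a + b) =
      β * m + x / A1 * a - 2 * ε / 3 * m := by
    rw [hmab]; ring
  rw [e2]
  nlinarith

end RP.PkCLB
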