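import Pool.Agent.Helper26.RP.Goals

/-!
# MP_105b7b_pr, packet IDX: the joined polygon as a polygon on `Fin`
-/

noncomputable section

namespace RP.PkIDX

open MeasureTheory

/-- The position in the joined polygon. -/
def pos (a b : ℕ) : J a b → Fin (a + b + 6)
  | .inl (.inl i) => ⟨i.val, by omega⟩
  | .inl (.inr j) => ⟨a + 3 + j.val, by omega⟩
  | .inr k => if k = 0 then ⟨a + 2, by omega⟩ else ⟨a + b + 5, by omega⟩

theorem pos_inj (a b : ℕ) : Function.Injective (pos a b) := by
  intro x y h
  rcases x with (i | j) | k <;> rcases y with (i' | j') | k' <;>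
    simp only [pos] at h
  · simp only [Fin.mk.injEq] at h
    have : i = i' := Fin.ext h
    rw [this]
  · simp only [Fin.mk.injEq] at h
    omega
  · split_ifs at h <;> simp only [Fin.mk.injEq] at h <;> omega
  · simp only [Fin.mk.injEq] at h
    omega
  · simp only [Fin.mk.injEq] at h
    have : j = j' := Fin.ext (by omega)
    rw [this]
  · split_ifs at h <;> simp only [Fin.mk.injEq] at h <;> omega
  · split_ifs at h <;> simp only [Fin.mk.injEq] at h <;> omega
  · split_ifs at h <;> simp only [Fin.mk.injEq] at h <;> omega
  · split_ifs at h with h1 h2 h2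
    · rw [h1, h2]
    · simp only [Fin.mk.injEq] at h; omega
    · simp only [Fin.mk.injEq] at h; omega
    · have : k = k' := by omega
      rw [this]

theorem pos_bij (a b : ℕ) : Function.Bijective (pos a b) := by
  rw [Fintype.bijective_iff_injective_and_card]
  refine ⟨pos_inj a b, ?_⟩
  simp only [Fintype.card_sum, Fintype.card_fin]
  omega

/-- The position as an equivalence. -/
def ep (a b : ℕ) : J a b ≃ Fin (a + b + 6) := Equiv.ofBijective _ (pos_bij a b)

theorem ep_succ (a b : ℕ) (k : J a b) :
    ep a b (succJ a b k) = finRotate (a + b + 6) (ep a b k) := by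
  have hr : ∀ x : Fin (a + b + 6), ((finRotate (a + b + 6) x : Fin (a + b + 6)) : ℕ) =
      if x = Fin.last (a + b + 5) then (0 : ℕ) else x + 1 := fun x => coe_finRotate x
  apply Fin.ext
  rw [hr]
  change ((pos a b (succJ a b k) : Fin (a + b + 6)) : ℕ) =
    if pos a b k = Fin.last (a + b + 5) then (0 : ℕ) else (pos a b k : ℕ) + 1
  rcases k with (i | j) | k
  · have h1 : ((pos a b (.inl (.inl i)) : Fin (a + b + 6)) : ℕ) = i := rfl
    have h2 : pos a b (.inl (.inl i)) ≠ Fin.last (a + b + 5) := by
      intro h
      have := congrArg Fin.val h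
      rw [h1] at this
      simp only [Fin.val_last] at this
      omega
    rw [if_neg h2, h1]
    simp only [succJ]
    split_ifs with h
    · simp [pos]
    · simp [pos]
      omega
  · have h1 : ((pos a b (.inl (.inr j)) : Fin (a + b + 6)) : ℕ) = a + 3 + j := rfl
    have h2 : pos a b (.inl (.inr j)) ≠ Fin.last (a + b + 5) := by
      intro h
      have := congrArg Fin.val h
      rw [h1] at this
      simp only [Fin.val_last] at this
      omega
    rw [if_neg h2, h1]
    simp only [succJ]
    split_ifs with h
    · simp only [pos]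
      omega
    · simp [pos]
      omega
  · by_cases hk : k = 0
    · subst hk
      have h1 : ((pos a b (.inr 0) : Fin (a + b + 6)) : ℕ) = a + 2 := rfl
      have h2 : pos a b (.inr 0) ≠ Fin.last (a + b + 5) := by
        intro h
        have := congrArg Fin.val h
        rw [h1] at this
        simp only [Fin.val_last] at this
        omega
      rw [if_neg h2, h1]
      simp [succJ, pos]
    · have h1 : pos a b (.inr k) = Fin.last (a + b + 5) := by
        simp only [pos, if_neg hk]
        apply Fin.ext
        simp
      rw [if_pos h1]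
      simp [succJ, pos, hk]

theorem cl_map {α β : Type*} (e : α ≃ β) (S : α → α) (S' : β → β)
    (h : ∀ k, e (S k) = S' (e k)) (z : α → E) (hz : Cl S z) :
    Cl S' (fun k => z (e.symm k)) := by
  refine ⟨?_, ?_⟩
  · intro i j k hij hjk hik
    exact hz.1 _ _ _ (fun q => hij (e.symm.injective q)) (fun q => hjk (e.symm.injective q))
      (fun q => hik (e.symm.injective q))
  · intro i j
    have h' : ∀ k, e.symm (S' k) = S (e.symm k) := by
      intro k
      rw [Equiv.symm_apply_eq, h, Equiv.apply_symm_apply]
    have := hz.2 (e.symm i) (e.symm j)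
    simp only [h']
    exact this

theorem cl_iff {α β : Type*} (e : α ≃ β) (S : α → α) (S' : β → β)
    (h : ∀ k, e (S k) = S' (e k)) (z : α → E) :
    Cl S' (fun k => z (e.symm k)) ↔ Cl S z := by
  constructor
  · intro hz
    have h' : ∀ k, e.symm (S' k) = S (e.symm k) := by
      intro k
      rw [Equiv.symm_apply_eq, h, Equiv.apply_symm_apply]
    have := cl_map e.symm S' S h' _ hz
    simpa using this
  · exact cl_map e S S' h z

/-- IDX. -/
theorem idx : G_IDX := by
  intro a b K
  unfold vc
  have mp := volume_measurePreserving_piCongrLeft (fun _ : Fin (a + b + 6) => E) (ep a b)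
  rw [← mp.measure_preimage_equiv]
  congr 1
  ext z
  have hz : (MeasurableEquiv.piCongrLeft (fun _ : Fin (a + b + 6) => E) (ep a b)) z =
      fun k => z ((ep a b).symm k) := by
    funext k
    obtain ⟨j, rfl⟩ := (ep a b).surjective k
    rw [Equiv.symm_apply_apply]
    exact Equiv.piCongrLeft_apply_apply (fun _ : Fin (a + b + 6) => E) (ep a b) z j
  simp only [Set.mem_ofPred_eq, Set.mem_preimage]
  rw [hz, cl_iff (ep a b) (succJ a b) (finRotate (a + b + 6)) (ep_succ a b) z]
  constructor
  · rintro ⟨h1, h2⟩
    exact ⟨fun i => h1 _, h2⟩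
  · rintro ⟨h1, h2⟩
    refine ⟨fun j => ?_, h2⟩
    have := h1 (ep a b j)
    simpa using this

end RP.PkIDX
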