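import Pool.Agent.Helper26.RP.Goals

/-!
# MP_105b7b_pr, packet MOD: the mode of the binomial distribution
-/

namespace RP.PkMOD

/-- The binomial terms. -/
def T (a b k : ℕ) : ℕ := a ^ k * b ^ (a + b - k) * (a + b).choose k

theorem T_succ (a b k : ℕ) (hk : k < a + b) :
    T a b (k + 1) * ((k + 1) * b) = T a b k * (a * (a + b - k)) := by
  unfold T
  have h1 : (a + b).choose (k + 1) * (k + 1) = (a + b).choose k * (a + b - k) :=
    Nat.choose_succ_right_eq _ _
  have h2 : b ^ (a + b - k) = b ^ (a + b - (k + 1)) * b := by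
    rw [← pow_succ]
    congr 1
    omega
  rw [h2]
  calc a ^ (k + 1) * b ^ (a + b - (k + 1)) * (a + b).choose (k + 1) * ((k + 1) * b)
      = a ^ (k + 1) * b ^ (a + b - (k + 1)) * b * ((a + b).choose (k + 1) * (k + 1)) := by ring
    _ = a ^ (k + 1) * b ^ (a + b - (k + 1)) * b * ((a + b).choose k * (a + b - k)) := by rw [h1]
    _ = _ := by ring

theorem T_up (a b k : ℕ) (hk : k < a) : T a b k ≤ T a b (k + 1) := by
  rcases Nat.eq_zero_or_pos b with hb | hb
  · subst hb
    have : T a 0 k = 0 := by
      unfold T
      rw [zero_pow (by omega)]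
      simp
    omega
  · have h := T_succ a b k (by omega)
    have h1 : (k + 1) * b ≤ a * (a + b - k) := Nat.mul_le_mul (by omega) (by omega)
    have h2 : T a b k * ((k + 1) * b) ≤ T a b (k + 1) * ((k + 1) * b) := by
      rw [h]
      exact Nat.mul_le_mul_left _ h1
    exact Nat.le_of_mul_le_mul_right h2 (by positivity)

theorem T_down (a b k : ℕ) (hk : a ≤ k) (hk2 : k < a + b) : T a b (k + 1) ≤ T a b k := by
  have h := T_succ a b k hk2
  have hb : 0 < b := by omega
  have h1 : a * (a + b - k) ≤ (k + 1) * b := Nat.mul_le_mul (by omega) (by omega)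
  have h2 : T a b (k + 1) * ((k + 1) * b) ≤ T a b k * ((k + 1) * b) := by
    rw [h]
    exact Nat.mul_le_mul_left _ h1
  exact Nat.le_of_mul_le_mul_right h2 (by positivity)

theorem T_le1 (a b j : ℕ) (hj : j ≤ a) : T a b (a - j) ≤ T a b a := by
  induction j with
  | zero => simp
  | succ j ih =>
    have h1 := ih (by omega)
    have h2 := T_up a b (a - (j + 1)) (by omega)
    have h3 : a - (j + 1) + 1 = a - j := by omega
    rw [h3] at h2
    exact h2.trans h1

theorem T_le2 (a b j : ℕ) (hj : a + j ≤ a + b) : T a b (a + j) ≤ T a b a := by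
  induction j with
  | zero => simp
  | succ j ih =>
    have h1 := ih (by omega)
    have h2 := T_down a b (a + j) (by omega) (by omega)
    exact h2.trans h1

theorem T_le (a b k : ℕ) (hk : k ≤ a + b) : T a b k ≤ T a b a := by
  rcases le_total k a with h | h
  · have := T_le1 a b (a - k) (by omega)
    have e : a - (a - k) = k := by omega
    rwa [e] at this
  · have := T_le2 a b (k - a) (by omega)
    have e : a + (k - a) = k := by omega
    rwa [e] at this

/-- MOD. -/
theorem mode : G_MOD := by
  intro a b
  have h1 : (a + b) ^ (a + b) = ∑ k ∈ Finset.range (a + b + 1), T a b k := by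
    rw [add_pow]
    rfl
  rw [h1]
  have h2 : ∑ k ∈ Finset.range (a + b + 1), T a b k ≤
      (Finset.range (a + b + 1)).card • T a b a := by
    apply Finset.sum_le_card_nsmul
    intro k hk
    exact T_le a b k (by have := Finset.mem_range.1 hk; omega)
  refine h2.trans (le_of_eq ?_)
  rw [Finset.card_range, smul_eq_mul]
  unfold T
  have e : a + b - a = b := by omega
  rw [e]
  ring

end RP.PkMOD
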